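import Pool.Agent.K3h27.PP.Stm

set_option autoImplicit false

open Finset

namespace Pool.Agent.K3h27.PP

theorem mem_P6 {V : Type} {G : SimpleGraph V} {W : Finset V} {a b c d e f : V} :
    (a, b, c, d, e, f) ∈ P6 G W ↔ (a ∈ W ∧ b ∈ W ∧ c ∈ W ∧ d ∈ W ∧ e ∈ W ∧ f ∈ W) ∧
      [a, b, c, d, e, f].Nodup ∧ G.Adj a b ∧ G.Adj b c ∧ G.Adj c d ∧ G.Adj d e ∧ G.Adj e f := by
  unfold P6
  simp only [mem_filter, mem_product]

theorem P6_closed {V : Type} [DecidableEq V] {G : SimpleGraph V} {W Q : Finset V} (hQ : Q.card = 5)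
    (hcl : ∀ x ∈ Q, ∀ y ∈ W, G.Adj x y → y ∈ Q) {x : V} (hx : x ∈ Q) :
    P6 G W ⊆ P6 G (W.erase x) := by
  rintro ⟨a, b, c, d, e, f⟩ h
  rw [mem_P6] at h ⊢
  obtain ⟨⟨ha, hb, hc, hd, he, hf⟩, hnd, h1, h2, h3, h4, h5⟩ := h
  have key : ¬ (a ∈ Q ∧ b ∈ Q ∧ c ∈ Q ∧ d ∈ Q ∧ e ∈ Q ∧ f ∈ Q) := by
    rintro ⟨ha', hb', hc', hd', he', hf'⟩
    have h6 : [a, b, c, d, e, f].toFinset ⊆ Q := by
      intro y hy
      simp only [List.toFinset_cons, List.toFinset_nil, insert_empty_eq, mem_insert,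
        mem_singleton] at hy
      rcases hy with rfl | rfl | rfl | rfl | rfl | rfl <;> assumption
    have h7 := card_le_card h6
    rw [List.toFinset_card_of_nodup hnd, hQ] at h7
    simp at h7
  have iab : a ∈ Q ↔ b ∈ Q := ⟨fun h => hcl a h b hb h1, fun h => hcl b h a ha h1.symm⟩
  have ibc : b ∈ Q ↔ c ∈ Q := ⟨fun h => hcl b h c hc h2, fun h => hcl c h b hb h2.symm⟩
  have icd : c ∈ Q ↔ d ∈ Q := ⟨fun h => hcl c h d hd h3, fun h => hcl d h c hc h3.symm⟩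
  have ide : d ∈ Q ↔ e ∈ Q := ⟨fun h => hcl d h e he h4, fun h => hcl e h d hd h4.symm⟩
  have ief : e ∈ Q ↔ f ∈ Q := ⟨fun h => hcl e h f hf h5, fun h => hcl f h e he h5.symm⟩
  have hno : a ∉ Q ∧ b ∉ Q ∧ c ∉ Q ∧ d ∉ Q ∧ e ∉ Q ∧ f ∉ Q := by tauto
  obtain ⟨na, nb, nc, nd, ne, nf⟩ := hno
  refine ⟨⟨?_, ?_, ?_, ?_, ?_, ?_⟩, hnd, h1, h2, h3, h4, h5⟩ <;> rw [mem_erase]
  · exact ⟨fun h => na (h ▸ hx), ha⟩
  · exact ⟨fun h => nb (h ▸ hx), hb⟩
  · exact ⟨fun h => nc (h ▸ hx), hc⟩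
  · exact ⟨fun h => nd (h ▸ hx), hd⟩
  · exact ⟨fun h => ne (h ▸ hx), he⟩
  · exact ⟨fun h => nf (h ▸ hx), hf⟩

/-- One step of the induction. -/
theorem class_step (hM : S_MIN3) (h2 : S_STEP2) (h4 : S_STEP4) {V : Type} [DecidableEq V]
    {G : SimpleGraph V} (hG : Good G) {W : Finset V} (hW : 9 ≤ W.card) :
    ∃ v ∈ W, (P6 G W).card ≤ (P6 G (W.erase v)).card +
      max (2 * ((W.card - 5) * (28 * W.card - 68))) (16 * (W.card - 3) * (W.card - 4)) := by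
  by_cases hdeg : ∃ v ∈ W, (nb G W v).card ≤ 2
  · obtain ⟨v, hv, hv2⟩ := hdeg
    exact ⟨v, hv, (h2 V G hG W v hv hv2 hW).trans (Nat.add_le_add_left (le_max_left _ _) _)⟩
  push Not at hdeg
  have hne : W.Nonempty := card_pos.1 (by omega)
  rcases hM V G hG W hne (fun v hv => hdeg v hv) with ⟨Q, hQW, hQ5, hcl⟩ |
    ⟨a, b, c, d, ha, hb, hc, hd, hnd, hab, hac, had, hbc, hbd, hcd, hcl⟩
  · obtain ⟨x, hx⟩ : Q.Nonempty := card_pos.1 (by omega)
    exact ⟨x, hQW hx, (card_le_card (P6_closed hQ5 hcl hx)).trans (Nat.le_add_right _ _)⟩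
  · exact ⟨a, ha, (h4 V G hG W a b c d ha hb hc hd hnd hab hac had hbc hbd hcd hcl hW).trans
      (Nat.add_le_add_left (le_max_right _ _) _)⟩

theorem class_ind (hM : S_MIN3) (h2 : S_STEP2) (h4 : S_STEP4) (hS : S_SMALL) {V : Type}
    {G : SimpleGraph V} (hG : Good G) : ∀ (m : ℕ) (W : Finset V), W.card = m + 9 →
      (P6 G W).card ≤ 24 * (m + 6) * (m + 5) * (m + 4) := by
  classical
  intro m
  induction m with
  | zero =>
    intro W hW
    obtain ⟨v, hv, hle⟩ := class_step hM h2 h4 hG (W := W) (by omega)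
    have h8 := hS V G hG.c6 (W.erase v) (by rw [card_erase_of_mem hv]; omega)
    rw [card_erase_of_mem hv, hW] at h8
    rw [hW] at hle
    have e1 : Nat.choose (0 + 9 - 1) 6 = 28 := by decide
    rw [e1] at h8
    norm_num at hle ⊢
    omega
  | succ m ih =>
    intro W hW
    obtain ⟨v, hv, hle⟩ := class_step hM h2 h4 hG (W := W) (by omega)
    have h8 := ih (W.erase v) (by rw [card_erase_of_mem hv]; omega)
    rw [hW] at hle
    have e1 : m + 1 + 9 - 5 = m + 5 := by omega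
    have e2 : 28 * (m + 1 + 9) - 68 = 28 * m + 212 := by omega
    have e3 : m + 1 + 9 - 3 = m + 7 := by omega
    have e4 : m + 1 + 9 - 4 = m + 6 := by omega
    rw [e1, e2, e3, e4] at hle
    have hmax : max (2 * ((m + 5) * (28 * m + 212))) (16 * (m + 7) * (m + 6)) ≤
        72 * (m + 6) * (m + 5) := by
      apply max_le <;> nlinarith
    have : 24 * (m + 6) * (m + 5) * (m + 4) + 72 * (m + 6) * (m + 5) =
        24 * (m + 1 + 6) * (m + 1 + 5) * (m + 1 + 4) := by ring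
    omega

theorem t_CLASS : S_MIN3 → S_STEP2 → S_STEP4 → S_SMALL → S_CLASS := by
  intro hM h2 h4 hS V G hG W
  by_cases h9 : 9 ≤ W.card
  · obtain ⟨m, hm⟩ : ∃ m, W.card = m + 9 := ⟨W.card - 9, by omega⟩
    have h := class_ind hM h2 h4 hS hG m W hm
    unfold gf
    rw [hm]
    by_cases h0 : m ≤ 1
    · interval_cases m <;> norm_num at h ⊢ <;> omega
    · rw [if_neg (by omega), if_neg (by omega), if_neg (by omega)]
      have e3 : m + 9 - 3 = m + 6 := by omega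
      have e4 : m + 9 - 4 = m + 5 := by omega
      have e5 : m + 9 - 5 = m + 4 := by omega
      rw [e3, e4, e5]
      refine h.trans (le_of_eq ?_)
      ring
  · have h := hS V G hG.c6 W (by omega)
    unfold gf
    have hlt : W.card < 9 := by omega
    interval_cases hc : W.card <;> simp [Nat.choose] at h ⊢ <;> omega

end Pool.Agent.K3h27.PP
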