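import Pool.Agent.K3h27.PP.SIX0
import Pool.Agent.K3h27.PP.CLASS

set_option autoImplicit false

open Finset

namespace Pool.Agent.K3h27.PP

open Six

/-- The pair with a given index. -/
def pr : ℕ → ℕ × ℕ
  | 0 => (0, 1) | 1 => (0, 2) | 2 => (1, 2) | 3 => (0, 3) | 4 => (1, 3) | 5 => (2, 3)
  | 6 => (0, 4) | 7 => (1, 4) | 8 => (2, 4) | 9 => (3, 4) | 10 => (0, 5) | 11 => (1, 5)
  | 12 => (2, 5) | 13 => (3, 5) | _ => (4, 5)

/-- The mask of a graph. -/
noncomputable def mk {V : Type} (G : SimpleGraph V) (v : ℕ → V) : ℕ := by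
  classical
  exact Nat.ofBits (fun k : Fin 15 => decide (G.Adj (v (pr k).1) (v (pr k).2)))

theorem mk_lt {V : Type} (G : SimpleGraph V) (v : ℕ → V) : mk G v < 32768 := by
  unfold mk
  exact Nat.ofBits_lt_two_pow _

theorem ix_pr {i j : ℕ} (hi : i < 6) (hj : j < 6) (hij : i ≠ j) :
    ix i j < 15 ∧ (pr (ix i j) = (i, j) ∨ pr (ix i j) = (j, i)) := by
  interval_cases i <;> interval_cases j <;> first | (exact absurd rfl hij) | decide

theorem tb_mk {V : Type} (G : SimpleGraph V) (v : ℕ → V) {i j : ℕ} (hi : i < 6) (hj : j < 6)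
    (hij : i ≠ j) : tb (mk G v) i j = true ↔ G.Adj (v i) (v j) := by
  classical
  obtain ⟨h1, h2⟩ := ix_pr hi hj hij
  unfold tb mk
  rw [Nat.testBit_ofBits_lt _ _ h1]
  simp only [decide_eq_true_eq]
  rcases h2 with h2 | h2
  · rw [h2]
  · rw [h2]
    exact G.adj_comm _ _

theorem t_SIX : S_SIX := by
  classical
  intro V G h6 W hW
  rcases (P6 G W).eq_empty_or_nonempty with h0 | ⟨⟨v0, v1, v2, v3, v4, v5⟩, hp⟩
  · rw [h0]; simp
  rw [mem_P6] at hp
  obtain ⟨⟨m0, m1, m2, m3, m4, m5⟩, hnd, a1, a2, a3, a4, a5⟩ := hp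
  obtain ⟨v, hv⟩ : ∃ v : ℕ → V, v = fun i => [v0, v1, v2, v3, v4, v5].getD i v0 := ⟨_, rfl⟩
  have e0 : v 0 = v0 := by rw [hv]; rfl
  have e1 : v 1 = v1 := by rw [hv]; rfl
  have e2 : v 2 = v2 := by rw [hv]; rfl
  have e3 : v 3 = v3 := by rw [hv]; rfl
  have e4 : v 4 = v4 := by rw [hv]; rfl
  have e5 : v 5 = v5 := by rw [hv]; rfl
  -- every element of `W` is some `v i`
  have hWv : ∀ x ∈ W, ∃ i < 6, v i = x := by
    have h1 : [v0, v1, v2, v3, v4, v5].toFinset = W := by
      apply eq_of_subset_of_card_le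
      · intro y hy
        simp only [List.toFinset_cons, List.toFinset_nil, insert_empty_eq, mem_insert,
          mem_singleton] at hy
        rcases hy with rfl | rfl | rfl | rfl | rfl | rfl <;> assumption
      · rw [List.toFinset_card_of_nodup hnd, hW]
        simp
    intro x hx
    rw [← h1] at hx
    simp only [List.toFinset_cons, List.toFinset_nil, insert_empty_eq, mem_insert,
      mem_singleton] at hx
    rcases hx with rfl | rfl | rfl | rfl | rfl | rfl
    · exact ⟨0, by norm_num, e0⟩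
    · exact ⟨1, by norm_num, e1⟩
    · exact ⟨2, by norm_num, e2⟩
    · exact ⟨3, by norm_num, e3⟩
    · exact ⟨4, by norm_num, e4⟩
    · exact ⟨5, by norm_num, e5⟩
  have hinj : ∀ i < 6, ∀ j < 6, v i = v j → i = j := by
    simp only [List.nodup_cons, List.mem_cons, List.not_mem_nil, or_false, not_or,
      not_false_eq_true, List.nodup_nil, and_true] at hnd
    obtain ⟨⟨n1, n2, n3, n4, n5⟩, ⟨n6, n7, n8, n9⟩, ⟨n10, n11, n12⟩, ⟨n13, n14⟩, n15⟩ := hnd
    intro i hi j hj hij
    interval_cases i <;> interval_cases j <;> first | rfl |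
      (simp only [e0, e1, e2, e3, e4, e5] at hij; exfalso;
       first | exact n1 hij | exact n2 hij | exact n3 hij | exact n4 hij | exact n5 hij |
        exact n6 hij | exact n7 hij | exact n8 hij | exact n9 hij | exact n10 hij |
        exact n11 hij | exact n12 hij | exact n13 hij | exact n14 hij | exact n15 hij |
        exact n1 hij.symm | exact n2 hij.symm | exact n3 hij.symm | exact n4 hij.symm |
        exact n5 hij.symm | exact n6 hij.symm | exact n7 hij.symm | exact n8 hij.symm |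
        exact n9 hij.symm | exact n10 hij.symm | exact n11 hij.symm | exact n12 hij.symm |
        exact n13 hij.symm | exact n14 hij.symm | exact n15 hij.symm)
  have hchk := chk_all _ (mk_lt G v)
  have t1 := (tb_mk G v (i := 0) (j := 1) (by norm_num) (by norm_num) (by norm_num)).2
    (by rw [e0, e1]; exact a1)
  have t2 := (tb_mk G v (i := 1) (j := 2) (by norm_num) (by norm_num) (by norm_num)).2
    (by rw [e1, e2]; exact a2)
  have t3 := (tb_mk G v (i := 2) (j := 3) (by norm_num) (by norm_num) (by norm_num)).2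
    (by rw [e2, e3]; exact a3)
  have t4 := (tb_mk G v (i := 3) (j := 4) (by norm_num) (by norm_num) (by norm_num)).2
    (by rw [e3, e4]; exact a4)
  have t5 := (tb_mk G v (i := 4) (j := 5) (by norm_num) (by norm_num) (by norm_num)).2
    (by rw [e4, e5]; exact a5)
  unfold chk at hchk
  rw [t1, t2, t3, t4, t5] at hchk
  simp only [Bool.not_true, Bool.false_or, Bool.or_eq_true, List.any_eq_true, Nat.ble_eq] at hchk
  -- tuples of vertices and tuples of indices
  have key : ∀ a b c d e f : ℕ, (a, b, c, d, e, f) ∈ pl (mk G v) →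
      [v a, v b, v c, v d, v e, v f].Nodup ∧ G.Adj (v a) (v b) ∧ G.Adj (v b) (v c) ∧
        G.Adj (v c) (v d) ∧ G.Adj (v d) (v e) ∧ G.Adj (v e) (v f) ∧ a < 6 ∧ f < 6 ∧ a ≠ f := by
    intro a b c d e f h
    rw [mem_pl] at h
    obtain ⟨⟨ha, hb, hc, hd, he, hf⟩, hn, s1, s2, s3, s4, s5⟩ := h
    have hn' := hn
    simp only [List.nodup_cons, List.mem_cons, List.not_mem_nil, or_false, not_or,
      not_false_eq_true, List.nodup_nil, and_true] at hn'
    obtain ⟨⟨n1, n2, n3, n4, n5⟩, ⟨n6, n7, n8, n9⟩, ⟨n10, n11, n12⟩, ⟨n13, n14⟩, n15⟩ := hn'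
    refine ⟨?_, (tb_mk G v ha hb n1).1 s1, (tb_mk G v hb hc n6).1 s2, (tb_mk G v hc hd n10).1 s3,
      (tb_mk G v hd he n13).1 s4, (tb_mk G v he hf n15).1 s5, ha, hf, n5⟩
    have : [v a, v b, v c, v d, v e, v f] = [a, b, c, d, e, f].map v := rfl
    rw [this]
    refine List.Nodup.map_on ?_ hn
    intro x hx y hy hxy
    simp only [List.mem_cons, List.not_mem_nil, or_false] at hx hy
    have hx6 : x < 6 := by rcases hx with rfl | rfl | rfl | rfl | rfl | rfl <;> assumption
    have hy6 : y < 6 := by rcases hy with rfl | rfl | rfl | rfl | rfl | rfl <;> assumption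
    exact hinj x hx6 y hy6 hxy
  rcases hchk with ⟨⟨a, b, c, d, e, f⟩, hmem, hcyc⟩ | hlen
  · exfalso
    obtain ⟨k1, k2, k3, k4, k5, k6, k7, k8, k9⟩ := key a b c d e f hmem
    exact h6 _ _ _ _ _ _ k1 k2 k3 k4 k5 k6 ((tb_mk G v k8 k7 (Ne.symm k9)).1 hcyc)
  · have hsub : P6 G W ⊆ ((pl (mk G v)).toFinset).image
        (fun p => (v p.1, v p.2.1, v p.2.2.1, v p.2.2.2.1, v p.2.2.2.2.1, v p.2.2.2.2.2)) := by
      rintro ⟨a, b, c, d, e, f⟩ h
      rw [mem_P6] at h
      obtain ⟨⟨ha, hb, hc, hd, he, hf⟩, hn, b1, b2, b3, b4, b5⟩ := h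
      obtain ⟨a, ha', rfl⟩ := hWv a ha
      obtain ⟨b, hb', rfl⟩ := hWv b hb
      obtain ⟨c, hc', rfl⟩ := hWv c hc
      obtain ⟨d, hd', rfl⟩ := hWv d hd
      obtain ⟨e, he', rfl⟩ := hWv e he
      obtain ⟨f, hf', rfl⟩ := hWv f hf
      rw [mem_image]
      refine ⟨(a, b, c, d, e, f), ?_, rfl⟩
      rw [List.mem_toFinset, mem_pl]
      have hn2 : [a, b, c, d, e, f].Nodup := by
        have : [v a, v b, v c, v d, v e, v f] = [a, b, c, d, e, f].map v := rfl
        rw [this] at hn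
        exact List.Nodup.of_map v hn
      have hn' := hn2
      simp only [List.nodup_cons, List.mem_cons, List.not_mem_nil, or_false, not_or,
        not_false_eq_true, List.nodup_nil, and_true] at hn'
      obtain ⟨⟨n1, n2, n3, n4, n5⟩, ⟨n6, n7, n8, n9⟩, ⟨n10, n11, n12⟩, ⟨n13, n14⟩, n15⟩ := hn'
      exact ⟨⟨ha', hb', hc', hd', he', hf'⟩, hn2, (tb_mk G v ha' hb' n1).2 b1,
        (tb_mk G v hb' hc' n6).2 b2, (tb_mk G v hc' hd' n10).2 b3, (tb_mk G v hd' he' n13).2 b4,
        (tb_mk G v he' hf' n15).2 b5⟩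
    exact (card_le_card hsub).trans (card_image_le.trans ((List.toFinset_card_le _).trans hlen))

end Pool.Agent.K3h27.PP
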