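import Pool.Agent.K3h27.PP.CLASS

set_option autoImplicit false

open Finset

namespace Pool.Agent.K3h27.PP

/-! ### The function `gf` -/

theorem gf_small {n : ℕ} (h : n ≤ 5) : gf n = 0 := by unfold gf; rw [if_pos h]

theorem gf_mid {n : ℕ} (h : 7 ≤ n) (h' : n ≤ 10) : gf n = 2520 := by
  unfold gf
  rw [if_neg (by omega), if_neg (by omega), if_pos h']

theorem gf_large (t : ℕ) : gf (10 + t) = 12 * (t + 7) * (t + 6) * (t + 5) := by
  rcases Nat.eq_zero_or_pos t with rfl | ht
  · rw [gf_mid (by norm_num) (by norm_num)]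
  · unfold gf
    rw [if_neg (by omega), if_neg (by omega), if_neg (by omega)]
    have e3 : 10 + t - 3 = t + 7 := by omega
    have e4 : 10 + t - 4 = t + 6 := by omega
    have e5 : 10 + t - 5 = t + 5 := by omega
    rw [e3, e4, e5]

theorem gf_mono_succ (n : ℕ) : gf n ≤ gf (n + 1) := by
  by_cases h : 10 ≤ n
  · obtain ⟨t, rfl⟩ : ∃ t, n = 10 + t := ⟨n - 10, by omega⟩
    rw [gf_large, show 10 + t + 1 = 10 + (t + 1) by ring, gf_large]
    have : 12 * (t + 1 + 7) * (t + 1 + 6) * (t + 1 + 5) =
        12 * (t + 7) * (t + 6) * (t + 5) + 36 * (t + 7) * (t + 6) := by ring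
    omega
  · have : n < 10 := by omega
    interval_cases n <;> decide

theorem gf_mono {m n : ℕ} (h : m ≤ n) : gf m ≤ gf n := monotone_nat_of_le_succ gf_mono_succ h

theorem gf_super_aux {a b : ℕ} (hab : a ≤ b) : gf a + gf b ≤ gf (a + b) := by
  by_cases ha : a ≤ 5
  · rw [gf_small ha, zero_add]
    exact gf_mono (by omega)
  by_cases hb : b ≤ 10
  · have ha' : 6 ≤ a := by omega
    have ha'' : a ≤ 10 := by omega
    have hb' : 6 ≤ b := by omega
    interval_cases a <;> interval_cases b <;> decide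
  obtain ⟨t, rfl⟩ : ∃ t, b = 10 + t := ⟨b - 10, by omega⟩
  by_cases ha10 : a ≤ 10
  · have h1 : gf a ≤ 2520 := by
      have := gf_mono ha10
      rwa [gf_mid (n := 10) (by norm_num) (by norm_num)] at this
    have h2 : gf (10 + (t + 6)) ≤ gf (a + (10 + t)) := gf_mono (by omega)
    rw [gf_large] at h2 ⊢
    have h3 : 12 * (t + 6 + 7) * (t + 6 + 6) * (t + 6 + 5) =
        12 * (t + 7) * (t + 6) * (t + 5) + (216 * t ^ 2 + 3888 * t + 18072) := by ring
    omega
  · obtain ⟨s, rfl⟩ : ∃ s, a = 10 + s := ⟨a - 10, by omega⟩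
    rw [show 10 + s + (10 + t) = 10 + (s + t + 10) by ring, gf_large, gf_large, gf_large]
    have h3 : 12 * (s + t + 10 + 7) * (s + t + 10 + 6) * (s + t + 10 + 5) =
        12 * (s + 7) * (s + 6) * (s + 5) + 12 * (t + 7) * (t + 6) * (t + 5) +
        (36 * s ^ 2 * t + 36 * s * t ^ 2 + 360 * s ^ 2 + 360 * t ^ 2 + 1152 * s * t +
          7920 * s + 7920 * t + 43920) := by ring
    omega

theorem gf_super (a b : ℕ) : gf a + gf b ≤ gf (a + b) := by
  rcases le_total a b with h | h
  · exact gf_super_aux h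
  · rw [add_comm (gf a), add_comm a]
    exact gf_super_aux h

/-! ### At most seven vertices -/

theorem P6_le_descFactorial {V : Type} (G : SimpleGraph V) (W : Finset V) :
    (P6 G W).card ≤ W.card.descFactorial 6 := by
  classical
  have h1 : Fintype.card (Fin 6 ↪ W) = W.card.descFactorial 6 := by
    rw [Fintype.card_embedding_eq, Fintype.card_coe, Fintype.card_fin]
  rw [← h1, ← Fintype.card_coe]
  refine Fintype.card_le_of_injective (fun p : P6 G W => (⟨fun i => ⟨![p.1.1, p.1.2.1, p.1.2.2.1,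
    p.1.2.2.2.1, p.1.2.2.2.2.1, p.1.2.2.2.2.2] i, ?_⟩, ?_⟩ : Fin 6 ↪ W)) ?_
  · obtain ⟨⟨a, b, c, d, e, f⟩, h⟩ := p
    rw [mem_P6] at h
    obtain ⟨⟨ha, hb, hc, hd, he, hf⟩, -⟩ := h
    fin_cases i <;> simpa
  · obtain ⟨⟨a, b, c, d, e, f⟩, h⟩ := p
    rw [mem_P6] at h
    obtain ⟨-, hnd, -⟩ := h
    simp only [List.nodup_cons, List.mem_cons, List.not_mem_nil, or_false, not_or,
      not_false_eq_true, List.nodup_nil, and_true] at hnd
    intro i j hij
    simp only [Subtype.mk.injEq] at hij
    fin_cases i <;> fin_cases j <;> simp at hij ⊢ <;> (exfalso; tauto)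
  · rintro ⟨⟨a, b, c, d, e, f⟩, h⟩ ⟨⟨a', b', c', d', e', f'⟩, h'⟩ heq
    have key : ∀ i : Fin 6, (![a, b, c, d, e, f] : Fin 6 → V) i = ![a', b', c', d', e', f'] i := by
      intro i
      have := DFunLike.congr_fun heq i
      exact congrArg Subtype.val this
    have k0 := key 0
    have k1 := key 1
    have k2 := key 2
    have k3 := key 3
    have k4 := key 4
    have k5 := key 5
    simp at k0 k1 k2 k3 k4 k5
    subst k0 k1 k2 k3 k4 k5
    rfl

/-! ### The induction -/

theorem P6_split {V : Type} [DecidableEq V] {G : SimpleGraph V} {W A : Finset V}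
    (hno : ∀ x ∈ A, ∀ y ∈ W, y ∉ A → ¬ G.Adj x y) :
    P6 G W ⊆ P6 G A ∪ P6 G (W \ A) := by
  rintro ⟨a, b, c, d, e, f⟩ h
  rw [mem_P6] at h
  obtain ⟨⟨ha, hb, hc, hd, he, hf⟩, hnd, h1, h2, h3, h4, h5⟩ := h
  have hcl : ∀ x ∈ A, ∀ y ∈ W, G.Adj x y → y ∈ A := by
    intro x hx y hy hxy
    by_contra hcon
    exact hno x hx y hy hcon hxy
  have iab : a ∈ A ↔ b ∈ A := ⟨fun h => hcl a h b hb h1, fun h => hcl b h a ha h1.symm⟩
  have ibc : b ∈ A ↔ c ∈ A := ⟨fun h => hcl b h c hc h2, fun h => hcl c h b hb h2.symm⟩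
  have icd : c ∈ A ↔ d ∈ A := ⟨fun h => hcl c h d hd h3, fun h => hcl d h c hc h3.symm⟩
  have ide : d ∈ A ↔ e ∈ A := ⟨fun h => hcl d h e he h4, fun h => hcl e h d hd h4.symm⟩
  have ief : e ∈ A ↔ f ∈ A := ⟨fun h => hcl e h f hf h5, fun h => hcl f h e he h5.symm⟩
  rw [mem_union, mem_P6, mem_P6]
  by_cases hA : a ∈ A
  · left
    exact ⟨by tauto, hnd, h1, h2, h3, h4, h5⟩
  · right
    simp only [mem_sdiff]
    exact ⟨by tauto, hnd, h1, h2, h3, h4, h5⟩

/-- The restriction of a graph to a set. -/
def restr {V : Type} (G : SimpleGraph V) (W : Finset V) : SimpleGraph V where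
  Adj x y := G.Adj x y ∧ x ∈ W ∧ y ∈ W
  symm := ⟨fun _ _ h => ⟨h.1.symm, h.2.2, h.2.1⟩⟩
  loopless := ⟨fun x h => G.irrefl h.1⟩

theorem P6_restr {V : Type} (G : SimpleGraph V) (W : Finset V) : P6 (restr G W) W = P6 G W := by
  ext ⟨a, b, c, d, e, f⟩
  rw [mem_P6, mem_P6]
  simp only [restr]
  tauto

theorem t_UPPER : S_CLASS → S_NOC7 → S_STR → S_COV → S_U2 → S_UPPER := by
  intro hCL h7 hSTR hCOV hU2 V G hP8
  classical
  have main : ∀ (n : ℕ) (W : Finset V), W.card = n → (P6 G W).card ≤ 2 * gf W.card := by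
    intro n
    induction n using Nat.strong_induction_on with
    | _ n ih =>
      intro W hW
      by_cases h8 : W.card ≤ 7
      · refine (P6_le_descFactorial G W).trans ?_
        interval_cases W.card <;> decide
      push Not at h8
      by_cases hconn : Conn G W
      · by_cases hc6 : ∃ a ∈ W, ∃ b ∈ W, ∃ c ∈ W, ∃ d ∈ W, ∃ e ∈ W, ∃ f ∈ W,
          [a, b, c, d, e, f].Nodup ∧ G.Adj a b ∧ G.Adj b c ∧ G.Adj c d ∧ G.Adj d e ∧ G.Adj e f ∧
            G.Adj f a
        · obtain ⟨a, ha, b, hb, c, hc, d, hd, e, he, f, hf, hnd, h1, h2, h3, h4, h5, h6⟩ := hc6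
          rcases hSTR V G hP8 W hconn (by omega) a ha b hb c hc d hd e he f hf hnd h1 h2 h3 h4 h5 h6
            with ⟨X, hXW, hX3, hX⟩ | ⟨C, U, hCW, hC6, hUC, hU2', hU⟩
          · have h := hCOV V G W X hXW hX3 hX
            by_cases h10 : 10 ≤ W.card
            · obtain ⟨t, ht⟩ : ∃ t, W.card = 10 + t := ⟨W.card - 10, by omega⟩
              rw [ht] at h ⊢
              rw [gf_large]
              have e3 : 10 + t - 3 = t + 7 := by omega
              have e4 : 10 + t - 4 = t + 6 := by omega
              have e5 : 10 + t - 5 = t + 5 := by omega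
              rw [e3, e4, e5] at h
              refine h.trans (le_of_eq ?_)
              ring
            · rw [gf_mid (by omega) (by omega)]
              have hlt : W.card < 10 := by omega
              interval_cases hc : W.card <;> norm_num at h ⊢ <;> omega
          · have h := hU2 V G W C U hCW hC6 hUC hU2' hU
            by_cases h10 : 10 ≤ W.card
            · obtain ⟨t, ht⟩ : ∃ t, W.card = 10 + t := ⟨W.card - 10, by omega⟩
              rw [ht] at h ⊢
              rw [gf_large]
              have e6 : 10 + t - 6 = t + 4 := by omega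
              have e7 : 10 + t - 7 = t + 3 := by omega
              rw [e6, e7] at h
              refine h.trans ?_
              have : 2 * (12 * (t + 7) * (t + 6) * (t + 5)) =
                720 + 672 * (t + 4) + 72 * (t + 4) * (t + 3) +
                  (24 * t ^ 3 + 360 * t ^ 2 + 1392 * t + 768) := by ring
              omega
            · rw [gf_mid (by omega) (by omega)]
              have hlt : W.card < 10 := by omega
              interval_cases hc : W.card <;> norm_num at h ⊢ <;> omega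
        · have hgood : Good (restr G W) := by
            refine ⟨?_, ?_, ?_⟩
            · intro a b c d e f g h hnd h1 h2 h3 h4 h5 h6 h7
              exact hP8 a b c d e f g h hnd h1.1 h2.1 h3.1 h4.1 h5.1 h6.1 h7.1
            · intro a b c d e f hnd h1 h2 h3 h4 h5 h6
              exact hc6 ⟨a, h1.2.1, b, h2.2.1, c, h3.2.1, d, h4.2.1, e, h5.2.1, f, h6.2.1, hnd,
                h1.1, h2.1, h3.1, h4.1, h5.1, h6.1⟩
            · intro a b c d e f g hnd h1 h2 h3 h4 h5 h6 h7'
              exact h7 V G hP8 W hconn (by omega) a h1.2.1 b h2.2.1 c h3.2.1 d h4.2.1 e h5.2.1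
                f h6.2.1 g h7'.2.1 hnd h1.1 h2.1 h3.1 h4.1 h5.1 h6.1 h7'.1
          have := hCL V (restr G W) hgood W
          rwa [P6_restr] at this
      · unfold Conn at hconn
        push Not at hconn
        obtain ⟨A, hAW, hA0, hAne, hno⟩ := hconn
        have hA1 : 0 < A.card := card_pos.2 hA0
        have hA2 : A.card < W.card := card_lt_card (Finset.ssubset_iff_subset_ne.2 ⟨hAW, hAne⟩)
        have hcard : (W \ A).card = W.card - A.card := card_sdiff_of_subset hAW
        have i1 := ih A.card (by omega) A rfl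
        have i2 := ih (W \ A).card (by omega) (W \ A) rfl
        have h1 : (P6 G W).card ≤ (P6 G A).card + (P6 G (W \ A)).card :=
          (card_le_card (P6_split (fun x hx y hy hyA => hno x hx y hy hyA))).trans
            (card_union_le _ _)
        have h2 := gf_super A.card (W.card - A.card)
        rw [hcard] at i2
        have e : A.card + (W.card - A.card) = W.card := by omega
        rw [e] at h2
        omega
  intro W
  exact main W.card W rfl

end Pool.Agent.K3h27.PP
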