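import Mathlib

/-!
# The number of six-vertex paths in graphs without eight-vertex path: statements of the steps

`MP_f77bf6_co`.  Everything is stated for the subgraph of `G` induced on a finite set `W`, and
paths are counted as ordered 6-tuples (every copy of `P_6` is counted twice).
-/

set_option autoImplicit false

open Finset

namespace Pool.Agent.K3h27.PP

/-- The ordered 6-vertex paths of `G` inside `W`. -/
noncomputable def P6 {V : Type} (G : SimpleGraph V) (W : Finset V) :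
    Finset (V × V × V × V × V × V) := by
  classical
  exact (W ×ˢ W ×ˢ W ×ˢ W ×ˢ W ×ˢ W).filter fun p =>
    [p.1, p.2.1, p.2.2.1, p.2.2.2.1, p.2.2.2.2.1, p.2.2.2.2.2].Nodup ∧
      G.Adj p.1 p.2.1 ∧ G.Adj p.2.1 p.2.2.1 ∧ G.Adj p.2.2.1 p.2.2.2.1 ∧
      G.Adj p.2.2.2.1 p.2.2.2.2.1 ∧ G.Adj p.2.2.2.2.1 p.2.2.2.2.2

/-- The ordered adjacent pairs inside `W`. -/
noncomputable def E2 {V : Type} (G : SimpleGraph V) (W : Finset V) : Finset (V × V) := by
  classical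
  exact (W ×ˢ W).filter fun p => G.Adj p.1 p.2

/-- The neighbours of `v` in `W`. -/
noncomputable def nb {V : Type} (G : SimpleGraph V) (W : Finset V) (v : V) : Finset V := by
  classical
  exact W.filter fun u => G.Adj v u

/-- No path with 8 vertices. -/
def NoP8 {V : Type} (G : SimpleGraph V) : Prop := ∀ a b c d e f g h : V,
  [a, b, c, d, e, f, g, h].Nodup → G.Adj a b → G.Adj b c → G.Adj c d → G.Adj d e → G.Adj e f →
    G.Adj f g → G.Adj g h → False

/-- No cycle with 6 vertices. -/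
def NoC6 {V : Type} (G : SimpleGraph V) : Prop := ∀ a b c d e f : V,
  [a, b, c, d, e, f].Nodup → G.Adj a b → G.Adj b c → G.Adj c d → G.Adj d e → G.Adj e f →
    G.Adj f a → False

/-- No cycle with 7 vertices. -/
def NoC7 {V : Type} (G : SimpleGraph V) : Prop := ∀ a b c d e f g : V,
  [a, b, c, d, e, f, g].Nodup → G.Adj a b → G.Adj b c → G.Adj c d → G.Adj d e → G.Adj e f →
    G.Adj f g → G.Adj g a → False

/-- No path with 8 vertices and no cycle with at least 6 vertices. -/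
structure Good {V : Type} (G : SimpleGraph V) : Prop where
  p8 : NoP8 G
  c6 : NoC6 G
  c7 : NoC7 G

/-- The extremal function. -/
def gf (n : ℕ) : ℕ :=
  if n ≤ 5 then 0 else if n = 6 then 360 else if n ≤ 10 then 2520 else
    12 * (n - 3) * (n - 4) * (n - 5)

/-- The graph induced on `W` is connected (for every cut there is an edge across it). -/
def Conn {V : Type} (G : SimpleGraph V) (W : Finset V) : Prop :=
  ∀ A : Finset V, A ⊆ W → A.Nonempty → A ≠ W → ∃ x ∈ A, ∃ y ∈ W, y ∉ A ∧ G.Adj x y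

/-! ### Graphs without cycles of length at least 6 -/

/-- **MIN3**: minimum degree at least 3. -/
def S_MIN3 : Prop := ∀ (V : Type) (G : SimpleGraph V), Good G → ∀ W : Finset V, W.Nonempty →
  (∀ v ∈ W, 3 ≤ (nb G W v).card) →
  (∃ Q : Finset V, Q ⊆ W ∧ Q.card = 5 ∧ ∀ x ∈ Q, ∀ y ∈ W, G.Adj x y → y ∈ Q) ∨
  (∃ a b c d : V, a ∈ W ∧ b ∈ W ∧ c ∈ W ∧ d ∈ W ∧ [a, b, c, d].Nodup ∧
    G.Adj a b ∧ G.Adj a c ∧ G.Adj a d ∧ G.Adj b c ∧ G.Adj b d ∧ G.Adj c d ∧
    ∀ y ∈ W, (G.Adj a y ∨ G.Adj b y ∨ G.Adj c y) → y = a ∨ y = b ∨ y = c ∨ y = d)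

/-- **EDGE**: the number of edges is at most twice the number of vertices. -/
def S_EDGE : Prop := ∀ (V : Type) (G : SimpleGraph V), Good G → ∀ W : Finset V,
  (E2 G W).card ≤ 4 * W.card

/-- **INTER**: pairwise intersecting pairs form a star or a triangle. -/
def S_INTER : Prop := ∀ (V : Type) (U : Finset V) (T : Finset (V × V)),
  (∀ p ∈ T, p.1 ∈ U ∧ p.2 ∈ U ∧ p.1 ≠ p.2) →
  (∀ p ∈ T, ∀ q ∈ T, p.1 = q.1 ∨ p.1 = q.2 ∨ p.2 = q.1 ∨ p.2 = q.2) →
  T.card ≤ max 6 (2 * (U.card - 1))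

/-- **L3**: paths of length 3 between two vertices. -/
def S_L3 : Prop := ∀ (V : Type) (G : SimpleGraph V), NoC6 G → ∀ (U : Finset V) (c z : V), c ≠ z →
  c ∉ U → z ∉ U → ∀ T : Finset (V × V),
  (∀ p ∈ T, p.1 ∈ U ∧ p.2 ∈ U ∧ G.Adj c p.1 ∧ G.Adj p.1 p.2 ∧ G.Adj p.2 z) →
  T.card ≤ max 6 (2 * (U.card - 1))

/-- **STEP2**: a vertex with at most two neighbours. -/
def S_STEP2 : Prop := ∀ (V : Type) [DecidableEq V] (G : SimpleGraph V), Good G →
  ∀ (W : Finset V) (v : V), v ∈ W → (nb G W v).card ≤ 2 → 9 ≤ W.card →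
  (P6 G W).card ≤ (P6 G (W.erase v)).card + 2 * ((W.card - 5) * (28 * W.card - 68))

/-- **STEP4**: a pendant `K_4`. -/
def S_STEP4 : Prop := ∀ (V : Type) [DecidableEq V] (G : SimpleGraph V), Good G →
  ∀ (W : Finset V) (a b c d : V), a ∈ W → b ∈ W → c ∈ W → d ∈ W → [a, b, c, d].Nodup →
    G.Adj a b → G.Adj a c → G.Adj a d → G.Adj b c → G.Adj b d → G.Adj c d →
    (∀ y ∈ W, (G.Adj a y ∨ G.Adj b y ∨ G.Adj c y) → y = a ∨ y = b ∨ y = c ∨ y = d) →
    9 ≤ W.card →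
  (P6 G W).card ≤ (P6 G (W.erase a)).card + 16 * (W.card - 3) * (W.card - 4)

/-- **SIX**: a graph with six vertices and without Hamiltonian cycle has at most 24 Hamiltonian
paths. -/
def S_SIX : Prop := ∀ (V : Type) (G : SimpleGraph V), NoC6 G → ∀ W : Finset V, W.card = 6 →
  (P6 G W).card ≤ 48

/-- **SMALL**: at most eight vertices. -/
def S_SMALL : Prop := ∀ (V : Type) (G : SimpleGraph V), NoC6 G → ∀ W : Finset V, W.card ≤ 8 →
  (P6 G W).card ≤ 48 * W.card.choose 6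

/-- **CLASS**: the bound for graphs without cycles of length at least 6. -/
def S_CLASS : Prop := ∀ (V : Type) (G : SimpleGraph V), Good G → ∀ W : Finset V,
  (P6 G W).card ≤ 2 * gf W.card

/-! ### Graphs with a cycle of length 6 -/

/-- **NOC7**: a connected graph with at least eight vertices and without 8-vertex path has no
7-cycle. -/
def S_NOC7 : Prop := ∀ (V : Type) (G : SimpleGraph V), NoP8 G → ∀ W : Finset V, Conn G W →
  8 ≤ W.card → ∀ a ∈ W, ∀ b ∈ W, ∀ c ∈ W, ∀ d ∈ W, ∀ e ∈ W, ∀ f ∈ W, ∀ g ∈ W,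
  [a, b, c, d, e, f, g].Nodup → G.Adj a b → G.Adj b c → G.Adj c d → G.Adj d e → G.Adj e f →
    G.Adj f g → G.Adj g a → False

/-- **STR**: the structure of the connected graphs without 8-vertex path that contain a 6-cycle. -/
def S_STR : Prop := ∀ (V : Type) (G : SimpleGraph V), NoP8 G → ∀ W : Finset V, Conn G W →
  8 ≤ W.card → ∀ a ∈ W, ∀ b ∈ W, ∀ c ∈ W, ∀ d ∈ W, ∀ e ∈ W, ∀ f ∈ W,
  [a, b, c, d, e, f].Nodup → G.Adj a b → G.Adj b c → G.Adj c d → G.Adj d e → G.Adj e f →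
    G.Adj f a →
  (∃ X : Finset V, X ⊆ W ∧ X.card = 3 ∧ ∀ x ∈ W, ∀ y ∈ W, G.Adj x y → x ∈ X ∨ y ∈ X) ∨
  (∃ C U : Finset V, C ⊆ W ∧ C.card = 6 ∧ U ⊆ C ∧ U.card ≤ 2 ∧
    ∀ x ∈ W, x ∉ C → ∀ y ∈ W, G.Adj x y → y ∈ U)

/-- **COV**: vertex cover of size 3. -/
def S_COV : Prop := ∀ (V : Type) (G : SimpleGraph V) (W X : Finset V), X ⊆ W → X.card = 3 →
  (∀ x ∈ W, ∀ y ∈ W, G.Adj x y → x ∈ X ∨ y ∈ X) →
  (P6 G W).card ≤ 24 * (W.card - 3) * (W.card - 4) * (W.card - 5)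

/-- **U2**: all vertices outside a 6-set are attached to the same at most two vertices. -/
def S_U2 : Prop := ∀ (V : Type) (G : SimpleGraph V) (W C U : Finset V), C ⊆ W → C.card = 6 →
  U ⊆ C → U.card ≤ 2 → (∀ x ∈ W, x ∉ C → ∀ y ∈ W, G.Adj x y → y ∈ U) →
  (P6 G W).card ≤ 720 + 672 * (W.card - 6) + 72 * (W.card - 6) * (W.card - 7)

/-! ### The result -/

/-- **UPPER**: the upper bound. -/
def S_UPPER : Prop := ∀ (V : Type) (G : SimpleGraph V), NoP8 G → ∀ W : Finset V,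
  (P6 G W).card ≤ 2 * gf W.card

/-- **LOWER**: the lower bound. -/
def S_LOWER : Prop := ∀ n : ℕ, ∃ G : SimpleGraph (Fin n), NoP8 G ∧
  2 * gf n ≤ (P6 G univ).card

/-- **COPY**: copies of the path with 6 vertices. -/
def S_COPY : Prop := ∀ (n : ℕ) (G : SimpleGraph (Fin n)),
  (P6 G univ).card = 2 * G.copyCount (SimpleGraph.pathGraph 6)

/-- **FREE**: freeness. -/
def S_FREE : Prop := ∀ (n : ℕ) (G : SimpleGraph (Fin n)),
  NoP8 G ↔ (SimpleGraph.pathGraph 8).Free G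

/-- The final statement. -/
def S_MAIN : Prop := ∀ n : ℕ,
  IsGreatest {m : ℕ | ∃ G : SimpleGraph (Fin n), (SimpleGraph.pathGraph 8).Free G ∧
    G.copyCount (SimpleGraph.pathGraph 6) = m} (gf n)

end Pool.Agent.K3h27.PP
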