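import Pool.Agent.K3h27.PP.INTER
import Pool.Agent.K3h27.PP.SIX
import Pool.Agent.K3h27.PP.CLASS
import Pool.Agent.K3h27.PP.UPPER
import Pool.Agent.K3h62.PP.MIN3
import Pool.Agent.K3h60.PP.Edge
import Pool.Agent.K3h60.PP.Small
import Pool.Agent.K3h24.PP.STEP2
import Pool.Agent.K3h17.PP.STEP4
import Pool.Agent.K3h51.PP.FREE
import Pool.Agent.K3h51.PP.NOC7
import Pool.Agent.K3h51.PP.COPY
import Pool.Agent.K3h49.PP.STR
import Pool.Agent.K3h37.PP.COV
import Pool.Agent.K3h91.PP.U2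

set_option autoImplicit false

open Finset

namespace Pool.Agent.K3h27.PP

theorem upper : S_UPPER := by
  have hE : S_EDGE := Pool.Agent.K3h60.PP.t_EDGE Pool.Agent.K3h62.PP.t_MIN3
  exact t_UPPER (t_CLASS Pool.Agent.K3h62.PP.t_MIN3 (Pool.Agent.K3h24.PP.t_STEP2 hE t_L3)
    (Pool.Agent.K3h17.PP.t_STEP4 hE t_L3) (Pool.Agent.K3h60.PP.t_SMALL t_SIX))
    Pool.Agent.K3h51.PP.t_NOC7 Pool.Agent.K3h49.PP.t_STR Pool.Agent.K3h37.PP.t_COV
    Pool.Agent.K3h91.PP.t_U2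

theorem main_of_lower (hL : S_LOWER) : S_MAIN := by
  intro n
  constructor
  · obtain ⟨G, hG, hc⟩ := hL n
    refine ⟨G, (Pool.Agent.K3h51.PP.t_FREE n G).1 hG, ?_⟩
    have h1 := Pool.Agent.K3h51.PP.t_COPY n G
    have h2 := upper (Fin n) G hG univ
    rw [card_univ, Fintype.card_fin] at h2
    omega
  · rintro m ⟨G, hG, rfl⟩
    have h1 := Pool.Agent.K3h51.PP.t_COPY n G
    have h2 := upper (Fin n) G ((Pool.Agent.K3h51.PP.t_FREE n G).2 hG) univ
    rw [card_univ, Fintype.card_fin] at h2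
    omega

end Pool.Agent.K3h27.PP
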