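import Pool.Agent.K3h27.PP.Stm

set_option autoImplicit false

open Finset

namespace Pool.Agent.K3h27.PP

theorem two_of_three {V : Type} {x y a b c : V} (hab : a ≠ b) (hca : c ≠ a) (hcb : c ≠ b)
    (hxy : x ≠ y) (h1 : x = a ∨ x = b ∨ y = a ∨ y = b) (h2 : x = b ∨ x = c ∨ y = b ∨ y = c)
    (h3 : x = a ∨ x = c ∨ y = a ∨ y = c) :
    (x = a ∧ y = b) ∨ (x = b ∧ y = a) ∨ (x = b ∧ y = c) ∨ (x = c ∧ y = b) ∨ (x = a ∧ y = c) ∨
      (x = c ∧ y = a) := by
  grind

theorem third_vertex {V : Type} {r1 r2 a b c : V} (hab : a ≠ b) (hca : c ≠ a) (hcb : c ≠ b)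
    (h1 : a = r1 ∨ a = r2 ∨ b = r1 ∨ b = r2) (h2 : b = r1 ∨ b = r2 ∨ c = r1 ∨ c = r2)
    (hb1 : r1 ≠ b) (hb2 : r2 ≠ b) : (r1 = a ∧ r2 = c) ∨ (r1 = c ∧ r2 = a) := by
  grind

theorem t_INTER : S_INTER := by
  classical
  intro V U T hT hI
  by_cases hs : ∃ s, ∀ p ∈ T, p.1 = s ∨ p.2 = s
  · obtain ⟨s, hs⟩ := hs
    refine le_trans ?_ (le_max_right _ _)
    by_cases hsU : s ∈ U
    · have h1 : T ⊆ (U.erase s).image (fun u => (s, u)) ∪ (U.erase s).image (fun u => (u, s)) := by
        rintro ⟨x, y⟩ hp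
        obtain ⟨hx, hy, hxy⟩ := hT _ hp
        simp only at hx hy hxy
        rw [mem_union, mem_image, mem_image]
        rcases hs _ hp with h | h
        · left
          simp only at h
          subst h
          exact ⟨y, mem_erase.2 ⟨Ne.symm hxy, hy⟩, rfl⟩
        · right
          simp only at h
          subst h
          exact ⟨x, mem_erase.2 ⟨hxy, hx⟩, rfl⟩
      calc T.card ≤ _ := card_le_card h1
        _ ≤ _ := card_union_le _ _
        _ ≤ (U.erase s).card + (U.erase s).card := Nat.add_le_add card_image_le card_image_le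
        _ = 2 * (U.card - 1) := by rw [card_erase_of_mem hsU]; ring
    · have : T = ∅ := by
        rw [eq_empty_iff_forall_notMem]
        rintro ⟨x, y⟩ hp
        obtain ⟨hx, hy, -⟩ := hT _ hp
        rcases hs _ hp with h | h
        · simp only at h hx
          exact hsU (h ▸ hx)
        · simp only at h hy
          exact hsU (h ▸ hy)
      rw [this]
      simp
  · refine le_trans ?_ (le_max_left _ _)
    push Not at hs
    rcases T.eq_empty_or_nonempty with h0 | ⟨⟨a, b⟩, hab⟩
    · rw [h0]; simp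
    obtain ⟨q, hq, hqa⟩ := hs a
    obtain ⟨r, hr, hrb⟩ := hs b
    have hne := (hT _ hab).2.2
    have hqn := (hT _ hq).2.2
    have hrn := (hT _ hr).2.2
    simp only at hne
    -- the third vertex
    obtain ⟨c, hca, hcb, hqc⟩ : ∃ c, c ≠ a ∧ c ≠ b ∧ (q = (b, c) ∨ q = (c, b)) := by
      obtain ⟨q1, q2⟩ := q
      have h := hI _ hab _ hq
      simp only at h hqa hqn
      rcases h with h | h | h | h
      · exact absurd h.symm hqa.1
      · exact absurd h.symm hqa.2
      · subst h
        exact ⟨q2, hqa.2, Ne.symm hqn, Or.inl rfl⟩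
      · subst h
        exact ⟨q1, hqa.1, hqn, Or.inr rfl⟩
    have hrc : r = (a, c) ∨ r = (c, a) := by
      obtain ⟨r1, r2⟩ := r
      have h := hI _ hab _ hr
      have h' := hI _ hq _ hr
      simp only at h hrb hrn
      simp only [Prod.mk.injEq]
      refine third_vertex hne hca hcb h ?_ hrb.1 hrb.2
      rcases hqc with rfl | rfl
      · exact h'
      · simp only at h'
        rcases h' with h' | h' | h' | h'
        · exact Or.inr (Or.inr (Or.inl h'))
        · exact Or.inr (Or.inr (Or.inr h'))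
        · exact Or.inl h'
        · exact Or.inr (Or.inl h')
    have key : T ⊆ {(a, b), (b, a), (b, c), (c, b), (a, c), (c, a)} := by
      rintro ⟨x, y⟩ hp
      have h1 := hI _ hp _ hab
      have h2 := hI _ hp _ hq
      have h3 := hI _ hp _ hr
      have hxy := (hT _ hp).2.2
      simp only at h1 hxy
      simp only [mem_insert, mem_singleton, Prod.mk.injEq]
      have h2' : x = b ∨ x = c ∨ y = b ∨ y = c := by
        rcases hqc with rfl | rfl <;> simp only at h2 <;> rcases h2 with h | h | h | h <;>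
          simp [h]
      have h3' : x = a ∨ x = c ∨ y = a ∨ y = c := by
        rcases hrc with rfl | rfl <;> simp only at h3 <;> rcases h3 with h | h | h | h <;>
          simp [h]
      exact two_of_three hne hca hcb hxy h1 h2' h3'
    refine (card_le_card key).trans ?_
    exact card_le_six

theorem t_L3 : S_L3 := by
  classical
  intro V G h6 U c z hcz hc hz T hT
  apply t_INTER V U T
  · rintro ⟨x, y⟩ hp
    obtain ⟨hx, hy, h1, h2, h3⟩ := hT _ hp
    exact ⟨hx, hy, h2.ne⟩
  · rintro ⟨x, y⟩ hp ⟨x', y'⟩ hq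
    obtain ⟨hx, hy, h1, h2, h3⟩ := hT _ hp
    obtain ⟨hx', hy', h1', h2', h3'⟩ := hT _ hq
    simp only at *
    by_contra hcon
    push Not at hcon
    obtain ⟨n1, n2, n3, n4⟩ := hcon
    refine h6 c x y z y' x' ?_ h1 h2 h3 h3'.symm h2'.symm h1'.symm
    have e1 : c ≠ x := fun h => hc (h ▸ hx)
    have e2 : c ≠ y := fun h => hc (h ▸ hy)
    have e3 : c ≠ x' := fun h => hc (h ▸ hx')
    have e4 : c ≠ y' := fun h => hc (h ▸ hy')
    have e5 : x ≠ z := fun h => hz (h ▸ hx)
    have e6 : y ≠ z := fun h => hz (h ▸ hy)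
    have e7 : z ≠ x' := fun h => hz (h ▸ hx')
    have e8 : z ≠ y' := fun h => hz (h ▸ hy')
    have e9 := h2.ne
    have e10 := h2'.ne.symm
    simp only [List.nodup_cons, List.mem_cons, List.not_mem_nil, or_false, not_or,
      not_false_eq_true, List.nodup_nil, and_true]
    tauto

end Pool.Agent.K3h27.PP
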