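import Mathlib

set_option autoImplicit false

namespace Pool.Agent.K3h27.PP.Six

/-- The index of a pair. -/
def ix (i j : ℕ) : ℕ := if i < j then j * (j - 1) / 2 + i else i * (i - 1) / 2 + j

/-- Adjacency in the graph with the edge mask `M`. -/
def tb (M i j : ℕ) : Bool := M.testBit (ix i j)

/-- The ordered Hamiltonian paths. -/
def pl (M : ℕ) : List (ℕ × ℕ × ℕ × ℕ × ℕ × ℕ) :=
  (List.range 6).flatMap fun a =>
  ((List.range 6).filter fun b => b != a && tb M a b).flatMap fun b =>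
  ((List.range 6).filter fun c => c != a && (c != b && tb M b c)).flatMap fun c =>
  ((List.range 6).filter fun d => d != a && (d != b && (d != c && tb M c d))).flatMap fun d =>
  ((List.range 6).filter fun e => e != a && (e != b && (e != c && (e != d && tb M d e)))).flatMap
    fun e =>
  ((List.range 6).filter fun f => f != a && (f != b && (f != c && (f != d && (f != e &&
    tb M e f))))).map fun f => (a, b, c, d, e, f)

theorem mem_pl {M a b c d e f : ℕ} : (a, b, c, d, e, f) ∈ pl M ↔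
    (a < 6 ∧ b < 6 ∧ c < 6 ∧ d < 6 ∧ e < 6 ∧ f < 6) ∧ [a, b, c, d, e, f].Nodup ∧
      tb M a b = true ∧ tb M b c = true ∧ tb M c d = true ∧ tb M d e = true ∧ tb M e f = true := by
  unfold pl
  simp only [List.mem_flatMap, List.mem_filter, List.mem_range, List.mem_map, Bool.and_eq_true,
    bne_iff_ne, ne_eq, Prod.mk.injEq, List.nodup_cons, List.mem_cons, List.not_mem_nil, or_false,
    not_or, not_false_eq_true, List.nodup_nil, and_true]
  constructor
  · rintro ⟨a', ha, b', ⟨hb, hb1, hb2⟩, c', ⟨hc, hc1, hc2, hc3⟩, d', ⟨hd, hd1, hd2, hd3, hd4⟩, e',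
      ⟨he, he1, he2, he3, he4, he5⟩, f', ⟨hf, hf1, hf2, hf3, hf4, hf5, hf6⟩, rfl, rfl, rfl, rfl,
      rfl, rfl⟩
    refine ⟨⟨ha, hb, hc, hd, he, hf⟩, ⟨⟨Ne.symm hb1, Ne.symm hc1, Ne.symm hd1, Ne.symm he1,
      Ne.symm hf1⟩, ⟨Ne.symm hc2, Ne.symm hd2, Ne.symm he2, Ne.symm hf2⟩, ⟨Ne.symm hd3, Ne.symm he3,
      Ne.symm hf3⟩, ⟨Ne.symm he4, Ne.symm hf4⟩, Ne.symm hf5⟩, hb2, hc3, hd4, he5, hf6⟩
  · rintro ⟨⟨ha, hb, hc, hd, he, hf⟩, ⟨⟨h1, h2, h3, h4, h5⟩, ⟨h6, h7, h8, h9⟩, ⟨h10, h11, h12⟩,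
      ⟨h13, h14⟩, h15⟩, t1, t2, t3, t4, t5⟩
    exact ⟨a, ha, b, ⟨hb, Ne.symm h1, t1⟩, c, ⟨hc, Ne.symm h2, Ne.symm h6, t2⟩, d,
      ⟨hd, Ne.symm h3, Ne.symm h7, Ne.symm h10, t3⟩, e,
      ⟨he, Ne.symm h4, Ne.symm h8, Ne.symm h11, Ne.symm h13, t4⟩, f,
      ⟨hf, Ne.symm h5, Ne.symm h9, Ne.symm h12, Ne.symm h14, Ne.symm h15, t5⟩,
      rfl, rfl, rfl, rfl, rfl, rfl⟩

/-- The check for one graph. -/
def chk (M : ℕ) : Bool :=
  !(tb M 0 1) || (!(tb M 1 2) || (!(tb M 2 3) || (!(tb M 3 4) || (!(tb M 4 5) ||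
    ((pl M).any (fun p => tb M p.2.2.2.2.2 p.1) || Nat.ble (pl M).length 48)))))

theorem check : ((List.range 128).all fun hi => (List.range 256).all fun lo =>
    chk (256 * hi + lo)) = true := by
  decide +kernel

theorem chk_all (M : ℕ) (hM : M < 32768) : chk M = true := by
  have h := check
  rw [List.all_eq_true] at h
  have h1 := h (M / 256) (List.mem_range.2 (by omega))
  rw [List.all_eq_true] at h1
  have h2 := h1 (M % 256) (List.mem_range.2 (by omega))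
  rwa [Nat.div_add_mod] at h2

end Pool.Agent.K3h27.PP.Six
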